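import Pool.Agent.N89.GS.Stm

set_option autoImplicit false

/-!
# Project GS (helper89), task MON: systems of monomials separate points
-/

namespace Pool.Agent.N813.GS

open MvPolynomial Finset Pool.Agent.W659 Pool.Agent.W659.SA Pool.Agent.N89.GS

/-- a product of linear forms (over the points with index in `S`) -/
theorem exists_form {k : Type} [Field k] {m l : ℕ} (T : Fin l → Fin m → k) (S : Finset (Fin l))
    (i₀ : Fin l) (hT₀ : T i₀ ≠ 0) (hT : ∀ i ∈ S, T i ≠ 0)
    (hne : ∀ i ∈ S, ∀ u : k, T i₀ ≠ u • T i) (e : ℕ) (he : S.card ≤ e) :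
    ∃ G : MvPolynomial (Fin m) k, G.IsHomogeneous e ∧ eval (T i₀) G ≠ 0 ∧
      ∀ i ∈ S, eval (T i) G = 0 := by
  classical
  have h1 : ∀ i ∈ S, ∃ ℓ : MvPolynomial (Fin m) k, ℓ.IsHomogeneous 1 ∧
      eval (T i) ℓ = 0 ∧ eval (T i₀) ℓ ≠ 0 := by
    intro i hi
    by_contra hcon
    push Not at hcon
    obtain ⟨s, hs⟩ : ∃ s, T i s ≠ 0 := by
      by_contra h
      push Not at h
      exact hT i hi (funext h)
    refine hne i hi (T i₀ s / T i s) ?_
    funext x
    have h2 := hcon (C (T i s) * X x - C (T i x) * X s)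
      (((isHomogeneous_C_mul_X _ _)).sub (isHomogeneous_C_mul_X _ _)) (by
        simp only [map_sub, map_mul, eval_C, eval_X]
        ring)
    simp only [map_sub, map_mul, eval_C, eval_X] at h2
    rw [Pi.smul_apply, smul_eq_mul]
    field_simp
    linear_combination h2
  choose! ℓ hℓ using h1
  obtain ⟨s, hs⟩ : ∃ s, T i₀ s ≠ 0 := by
    by_contra h
    push Not at h
    exact hT₀ (funext h)
  set P : MvPolynomial (Fin m) k := ∏ i ∈ S, ℓ i with hP
  have hPh : P.IsHomogeneous S.card := by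
    have h2 := IsHomogeneous.prod S ℓ (fun _ => 1) (fun i hi => (hℓ i hi).1)
    rw [Finset.sum_const, smul_eq_mul, mul_one] at h2
    exact h2
  have hP0 : eval (T i₀) P ≠ 0 := by
    rw [hP, map_prod, Finset.prod_ne_zero_iff]
    intro i hi
    exact (hℓ i hi).2.2
  have hPi : ∀ i ∈ S, eval (T i) P = 0 := by
    intro i hi
    rw [hP, map_prod]
    exact Finset.prod_eq_zero hi (hℓ i hi).2.1
  refine ⟨P * X s ^ (e - S.card), ?_, ?_, ?_⟩
  · have h3 := hPh.mul ((isHomogeneous_X k s).pow (e - S.card))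
    rw [one_mul] at h3
    have h4 : S.card + (e - S.card) = e := by omega
    rwa [h4] at h3
  · simp only [map_mul, map_pow, eval_X]
    exact mul_ne_zero hP0 (pow_ne_zero _ hs)
  · intro i hi
    simp only [map_mul, hPi i hi]
    ring

/-- a relation between the values of the monomials holds for the values of all forms -/
theorem rel_form {k : Type} [Field k] {m l e : ℕ} (T : Fin l → Fin m → k) (c : Fin l → k)
    (h : ∀ α : Fin m → ℕ, ∑ j, α j = e → ∑ i, c i * ∏ j, T i j ^ α j = 0)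
    (G : MvPolynomial (Fin m) k) (hG : G.IsHomogeneous e) : ∑ i, c i * eval (T i) G = 0 := by
  simp only [eval_eq', Finset.mul_sum]
  rw [Finset.sum_comm]
  apply Finset.sum_eq_zero
  intro d hd
  have h2 := hG (mem_support_iff.1 hd)
  rw [Finsupp.weight_apply, Finsupp.sum_fintype _ _ (fun _ => by simp)] at h2
  have h3 : ∑ j, d j = e := by simpa using h2
  have h4 := h (fun j => d j) h3
  calc ∑ i, c i * (coeff d G * ∏ j, T i j ^ d j) = coeff d G * ∑ i, c i * ∏ j, T i j ^ d j := by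
        rw [Finset.mul_sum]
        exact Finset.sum_congr rfl fun i _ => by ring
    _ = 0 := by rw [h4, mul_zero]

theorem vl_mon {O k : Type} [CommRing O] [Field k] (φ : O →+* k) {r s m : ℕ}
    (μ : Fin r → Fin 3 → ℕ) (x : Fin s → ℕ) (α : Fin m → ℕ) (V : Fin r → Fin 3 → k)
    (u : Fin s → k) (T : Fin m → k) :
    vl φ (mon μ x α) V u T =
      (∏ i, ∏ j, V i j ^ μ i j) * ((∏ l, u l ^ x l) * ∏ i, T i ^ α i) := by
  unfold vl mon
  simp only [eval₂_mul, eval₂_prod, eval₂_pow, eval₂_X, Sum.elim_inl, Sum.elim_inr]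

theorem indep {k : Type} [Field k] {l : ℕ} {ι : Type} (v : Fin l → ι → k)
    (h : ∀ c : Fin l → k, (∀ x, ∑ i, c i * v i x = 0) → ∀ i, c i = 0) : LinearIndependent k v := by
  rw [Fintype.linearIndependent_iff]
  intro c hc
  apply h c
  intro x
  have := congrFun hc x
  simpa [Finset.sum_apply] using this

/-- an exponent of multidegree `d` not vanishing at `V` -/
theorem exists_mu {k : Type} [Field k] {r : ℕ} (d : Fin r → ℕ) (V : Fin r → Fin 3 → k)
    (hV : ∀ i, V i ≠ 0) :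
    ∃ μ : Fin r → Fin 3 → ℕ, (∀ i, ∑ j, μ i j = d i) ∧ ∏ i, ∏ j, V i j ^ μ i j ≠ 0 := by
  classical
  have h2 : ∀ i, ∃ x, V i x ≠ 0 := by
    intro i
    by_contra h
    push Not at h
    exact hV i (funext h)
  choose x hx using h2
  refine ⟨fun i => Pi.single (x i) (d i), ?_, ?_⟩
  · intro i
    simp
  · rw [Finset.prod_ne_zero_iff]
    intro i _
    rw [Finset.prod_ne_zero_iff]
    intro s _
    by_cases hs : s = x i
    · subst hs
      exact pow_ne_zero _ (hx i)
    · simp [Pi.single_eq_of_ne hs]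


/-- the value of the monomial `V^μ u^x` -/
def M {k : Type} [Field k] {r s : ℕ} (μ : Fin r → Fin 3 → ℕ) (x : Fin s → ℕ)
    (V : Fin r → Fin 3 → k) (u : Fin s → k) : k :=
  (∏ i, ∏ j, V i j ^ μ i j) * ∏ l, u l ^ x l

theorem M_add {k : Type} [Field k] {r s : ℕ} (ν : Fin r → Fin 3 → ℕ) (x : Fin s → ℕ)
    (V : Fin r → Fin 3 → k) (u : Fin s → k) (i : Fin r) (j : Fin 3) :
    M (ν + Pi.single i (Pi.single j 1)) x V u = M ν x V u * V i j := by
  classical
  unfold M
  have h1 : ∏ i', ∏ j', V i' j' ^ (ν + Pi.single i (Pi.single j 1) : Fin r → Fin 3 → ℕ) i' j' =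
      (∏ i', ∏ j', V i' j' ^ ν i' j') *
        ∏ i', ∏ j', V i' j' ^ (Pi.single i (Pi.single j 1) : Fin r → Fin 3 → ℕ) i' j' := by
    simp only [Pi.add_apply, pow_add, Finset.prod_mul_distrib]
  have h2 : ∏ i', ∏ j', V i' j' ^ (Pi.single i (Pi.single j 1) : Fin r → Fin 3 → ℕ) i' j' =
      V i j := by
    rw [Finset.prod_eq_single i, Finset.prod_eq_single j]
    · simp
    · intro j' _ hj'
      simp [Pi.single_eq_of_ne hj']
    · intro h
      exact absurd (mem_univ _) h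
    · intro i' _ hi'
      simp [Pi.single_eq_of_ne hi']
    · intro h
      exact absurd (mem_univ _) h
  rw [h1, h2]
  ring

theorem M_update {k : Type} [Field k] {r s : ℕ} (μ : Fin r → Fin 3 → ℕ) (x : Fin s → ℕ)
    (V : Fin r → Fin 3 → k) (u : Fin s → k) (l : Fin s) :
    M μ (Function.update x l (x l + 1)) V u = M μ x V u * u l := by
  classical
  unfold M
  rw [← Finset.mul_prod_erase univ (fun l' => u l' ^ Function.update x l (x l + 1) l') (mem_univ l),
    ← Finset.mul_prod_erase univ (fun l' => u l' ^ x l') (mem_univ l)]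
  have h1 : ∏ l' ∈ univ.erase l, u l' ^ Function.update x l (x l + 1) l' =
      ∏ l' ∈ univ.erase l, u l' ^ x l' := by
    refine Finset.prod_congr rfl fun l' hl' => ?_
    rw [Function.update_of_ne (Finset.ne_of_mem_erase hl')]
  rw [h1, Function.update_self, pow_succ]
  ring

/-- the exponents `(μ, x)` in the system -/
def Adm {r s : ℕ} (d : Fin r → ℕ) (x₀ : Fin s → ℕ) (μ : Fin r → Fin 3 → ℕ) (x : Fin s → ℕ) : Prop :=
  (∀ i, ∑ j, μ i j = d i) ∧ (x = x₀ ∨ ∃ l, x = Function.update x₀ l (x₀ l + 1))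

theorem exists_L {k : Type} [Field k] {r s : ℕ} (d : Fin r → ℕ) (hd : ∀ i, 1 ≤ d i)
    (x₀ : Fin s → ℕ) (V V' : Fin r → Fin 3 → k) (u u' : Fin s → k)
    (hV : ∀ i, V i ≠ 0) (hV' : ∀ i, V' i ≠ 0) (hu : ∀ l, u l ≠ 0) (h : ¬ SameB V u V' u') :
    ∃ (μ₁ μ₂ : Fin r → Fin 3 → ℕ) (x₁ x₂ : Fin s → ℕ) (a₁ a₂ : k), Adm d x₀ μ₁ x₁ ∧
      Adm d x₀ μ₂ x₂ ∧ a₁ * M μ₁ x₁ V u + a₂ * M μ₂ x₂ V u ≠ 0 ∧
      a₁ * M μ₁ x₁ V' u' + a₂ * M μ₂ x₂ V' u' = 0 := by
  classical
  have hux : ∀ x : Fin s → ℕ, ∏ l, u l ^ x l ≠ 0 := fun x =>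
    Finset.prod_ne_zero_iff.2 fun l _ => pow_ne_zero _ (hu l)
  by_cases hs : u = u'
  · have h1 : ∃ i, ∀ c : k, V i ≠ c • V' i := by
      by_contra hcon
      push Not at hcon
      exact h ⟨hcon, hs⟩
    obtain ⟨i, hi⟩ := h1
    have h2 : ∃ j j', V i j * V' i j' - V i j' * V' i j ≠ 0 := by
      by_contra hcon
      push Not at hcon
      obtain ⟨j', hj'⟩ : ∃ j', V' i j' ≠ 0 := by
        by_contra h3
        push Not at h3
        exact hV' i (funext h3)
      apply hi (V i j' / V' i j')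
      funext j
      have h3 := hcon j j'
      rw [Pi.smul_apply, smul_eq_mul]
      field_simp
      linear_combination h3
    obtain ⟨j, j', hjj⟩ := h2
    obtain ⟨ν, hν, hν0⟩ := exists_mu (Function.update d i (d i - 1)) V hV
    have hadm : ∀ j₁ : Fin 3, Adm d x₀ (ν + Pi.single i (Pi.single j₁ 1)) x₀ := by
      intro j₁
      refine ⟨fun i' => ?_, Or.inl rfl⟩
      simp only [Pi.add_apply, Finset.sum_add_distrib, hν i']
      by_cases hii : i' = i
      · subst hii
        rw [Function.update_self, Pi.single_eq_same]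
        have := hd i'
        simp
        omega
      · rw [Function.update_of_ne hii, Pi.single_eq_of_ne hii]
        simp
    refine ⟨_, _, x₀, x₀, V' i j', - V' i j, hadm j, hadm j', ?_, ?_⟩
    · rw [M_add, M_add]
      have h4 : M ν x₀ V u ≠ 0 := mul_ne_zero hν0 (hux x₀)
      have h5 : V' i j' * (M ν x₀ V u * V i j) + -V' i j * (M ν x₀ V u * V i j') =
          M ν x₀ V u * (V i j * V' i j' - V i j' * V' i j) := by ring
      rw [h5]
      exact mul_ne_zero h4 hjj
    · rw [M_add, M_add]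
      ring
  · obtain ⟨l, hl⟩ : ∃ l, u l ≠ u' l := by
      by_contra hcon
      push Not at hcon
      exact hs (funext hcon)
    obtain ⟨μ, hμ, hμ0⟩ := exists_mu d V hV
    refine ⟨μ, μ, Function.update x₀ l (x₀ l + 1), x₀, 1, - u' l, ⟨hμ, Or.inr ⟨l, rfl⟩⟩,
      ⟨hμ, Or.inl rfl⟩, ?_, ?_⟩
    · rw [M_update]
      have h5 : 1 * (M μ x₀ V u * u l) + -u' l * M μ x₀ V u = M μ x₀ V u * (u l - u' l) := by ring
      rw [h5]
      exact mul_ne_zero (mul_ne_zero hμ0 (hux x₀)) (sub_ne_zero.2 hl)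
    · rw [M_update]
      ring

theorem main : S_MON := by
  classical
  intro O k _ _ φ r s m q a b G ι Λ k₀ d e x₀ he hΛ
  refine ⟨?_, ?_⟩
  · intro V u hB l hl T hF hne
    apply indep
    intro c hc i₀
    have hV : ∀ i, V i ≠ 0 := fun i => (hB.1 i).1
    obtain ⟨μ, hμ, hμ0⟩ := exists_mu d V hV
    have hu : ∏ l, u l ^ x₀ l ≠ 0 := Finset.prod_ne_zero_iff.2 fun l _ => pow_ne_zero _ (hB.2 l)
    obtain ⟨P, hP, hP0, hPi⟩ := exists_form T (univ.erase i₀) i₀ (hF i₀).1
      (fun i _ => (hF i).1) (fun i hi => hne i₀ i (Finset.ne_of_mem_erase hi).symm) e (by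
        rw [Finset.card_erase_of_mem (mem_univ _), Finset.card_univ, Fintype.card_fin]
        omega)
    have hrel := rel_form T c (e := e) (by
      intro α hα
      obtain ⟨y, hy⟩ := hΛ μ α hμ hα
      have h1 := hc y
      rw [hy] at h1
      simp only [vl_mon] at h1
      have h2 : ∑ i, c i * ((∏ i, ∏ j, V i j ^ μ i j) * ((∏ l, u l ^ x₀ l) *
          ∏ j, T i j ^ α j)) = ((∏ i, ∏ j, V i j ^ μ i j) * (∏ l, u l ^ x₀ l)) *
          ∑ i, c i * ∏ j, T i j ^ α j := by
        rw [Finset.mul_sum]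
        exact Finset.sum_congr rfl fun i _ => by ring
      rw [h2] at h1
      exact (mul_eq_zero.1 h1).resolve_left (mul_ne_zero hμ0 hu)) P hP
    rw [Finset.sum_eq_single i₀] at hrel
    · exact (mul_eq_zero.1 hrel).resolve_right hP0
    · intro i _ hi
      rw [hPi i (Finset.mem_erase.2 ⟨hi, mem_univ _⟩), mul_zero]
    · intro h
      exact absurd (mem_univ _) h
  · intro hd hΛ' V V' u u' hB hB' hns l hl g T hF hne
    apply indep
    intro c hc i₀
    have hall : ∀ μ x, Adm d x₀ μ x → ∀ α : Fin m → ℕ, ∑ i, α i = e → ∃ y, Λ y = mon μ x α := by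
      rintro μ x ⟨hμ, rfl | ⟨l, rfl⟩⟩ α hα
      · exact hΛ μ α hμ hα
      · exact hΛ' μ α l hμ hα
    have hVV : ∀ i, V i ≠ 0 := fun i => (hB.1 i).1
    have hVV' : ∀ i, V' i ≠ 0 := fun i => (hB'.1 i).1
    have hns' : ¬ SameB V' u' V u := by
      rintro ⟨h1, h2⟩
      apply hns
      refine ⟨fun i => ?_, h2.symm⟩
      obtain ⟨z, hz⟩ := h1 i
      have hz0 : z ≠ 0 := by
        rintro rfl
        exact hVV' i (by rw [hz, zero_smul])
      exact ⟨z⁻¹, by rw [hz, smul_smul, inv_mul_cancel₀ hz0, one_smul]⟩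
    -- the two base points
    have hL : ∃ (μ₁ μ₂ : Fin r → Fin 3 → ℕ) (x₁ x₂ : Fin s → ℕ) (a₁ a₂ : k), Adm d x₀ μ₁ x₁ ∧
        Adm d x₀ μ₂ x₂ ∧
        a₁ * M μ₁ x₁ (cond (g i₀) V' V) (cond (g i₀) u' u) +
          a₂ * M μ₂ x₂ (cond (g i₀) V' V) (cond (g i₀) u' u) ≠ 0 ∧
        ∀ i, g i ≠ g i₀ → a₁ * M μ₁ x₁ (cond (g i) V' V) (cond (g i) u' u) +
          a₂ * M μ₂ x₂ (cond (g i) V' V) (cond (g i) u' u) = 0 := by
      cases hg : g i₀
      · obtain ⟨μ₁, μ₂, x₁, x₂, a₁, a₂, h1, h2, h3, h4⟩ :=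
          exists_L d hd x₀ V V' u u' hVV hVV' hB.2 hns
        refine ⟨μ₁, μ₂, x₁, x₂, a₁, a₂, h1, h2, h3, fun i hi => ?_⟩
        have h5 : g i = true := by simpa using hi
        rw [h5]
        exact h4
      · obtain ⟨μ₁, μ₂, x₁, x₂, a₁, a₂, h1, h2, h3, h4⟩ :=
          exists_L d hd x₀ V' V u' u hVV' hVV hB'.2 hns'
        refine ⟨μ₁, μ₂, x₁, x₂, a₁, a₂, h1, h2, h3, fun i hi => ?_⟩
        have h5 : g i = false := by simpa using hi
        rw [h5]
        exact h4
    obtain ⟨μ₁, μ₂, x₁, x₂, a₁, a₂, h1, h2, h3, h4⟩ := hL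
    set S : Finset (Fin l) := (univ.erase i₀).filter (fun i => g i = g i₀) with hS
    obtain ⟨P, hP, hP0, hPi⟩ := exists_form T S i₀ (hF i₀).1
      (fun i _ => (hF i).1) (fun i hi => by
        rw [hS, Finset.mem_filter] at hi
        exact hne i₀ i (Finset.ne_of_mem_erase hi.1).symm hi.2.symm) e (by
        have h5 : S.card ≤ (univ.erase i₀).card := Finset.card_filter_le _ _
        rw [Finset.card_erase_of_mem (mem_univ _), Finset.card_univ, Fintype.card_fin] at h5
        omega)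
    have hone : ∀ μ x, Adm d x₀ μ x → ∀ α : Fin m → ℕ, ∑ i, α i = e →
        ∑ i, c i * (M μ x (cond (g i) V' V) (cond (g i) u' u) * ∏ j, T i j ^ α j) = 0 := by
      intro μ x hμx α hα
      obtain ⟨y, hy⟩ := hall μ x hμx α hα
      have h5 := hc y
      rw [hy] at h5
      rw [← h5]
      refine Finset.sum_congr rfl fun i _ => ?_
      rw [vl_mon]
      unfold M
      ring
    have hrel := rel_form T (fun i => c i * (a₁ * M μ₁ x₁ (cond (g i) V' V) (cond (g i) u' u) +
          a₂ * M μ₂ x₂ (cond (g i) V' V) (cond (g i) u' u))) (e := e) (by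
      intro α hα
      have h5 := hone μ₁ x₁ h1 α hα
      have h6 := hone μ₂ x₂ h2 α hα
      calc ∑ i, c i * (a₁ * M μ₁ x₁ (cond (g i) V' V) (cond (g i) u' u) +
            a₂ * M μ₂ x₂ (cond (g i) V' V) (cond (g i) u' u)) * ∏ j, T i j ^ α j =
          a₁ * ∑ i, c i * (M μ₁ x₁ (cond (g i) V' V) (cond (g i) u' u) * ∏ j, T i j ^ α j) +
          a₂ * ∑ i, c i * (M μ₂ x₂ (cond (g i) V' V) (cond (g i) u' u) * ∏ j, T i j ^ α j) := by
            rw [Finset.mul_sum, Finset.mul_sum, ← Finset.sum_add_distrib]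
            exact Finset.sum_congr rfl fun i _ => by ring
        _ = 0 := by rw [h5, h6]; ring) P hP
    rw [Finset.sum_eq_single i₀] at hrel
    · have h7 := (mul_eq_zero.1 hrel).resolve_right hP0
      exact (mul_eq_zero.1 h7).resolve_right h3
    · intro i _ hi
      by_cases hgi : g i = g i₀
      · rw [hPi i (by rw [hS, Finset.mem_filter]; exact ⟨Finset.mem_erase.2 ⟨hi, mem_univ _⟩, hgi⟩),
          mul_zero]
      · simp only [h4 i hgi, mul_zero, zero_mul]
    · intro h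
      exact absurd (mem_univ _) h

end Pool.Agent.N813.GS
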